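import Pool.Agent.H51BS.Restriction

/-!
# Injectivity of the restriction to the generic fibre, for blow-ups of projective spaces over the
integers in varieties over finite fields
-/

set_option autoImplicit false

namespace Pool.Agent.Results.MP_6b81c5_nt.BlowUpsInFibres

open Pool.Agent.H51BS

/-- For every prime `p` and every `D` the following are equivalent:

1. `H^{2d-1-i}(X, ℚ(d)) → H^{2d-1-i}(X_ℚ, ℚ(d))` is injective for all `i ≥ 0` and all blow-ups `X` of
   projective spaces `ℙ^N_ℤ` along subschemes of `ℙ^N_{𝔽_p}`, smooth, projective and connected, of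
   dimension at most `D` (`d = N + 1`);
2. `Hʲ(𝔽_p(t₁, …, t_{D+1}), ℚ(m))` is finite dimensional for all `j` and all `m ≥ D + 2`;
3. these spaces are zero;
4. `Hʲ(E, ℚ(m)) = 0` for all `j`, all `m > D` and all fields `E` of transcendence degree at most `D`
   over `𝔽_p`.

If the answer to the question is positive, then these statements hold for all `p` and `D`. -/
theorem result (M : RestrictionTheory) (p : ℕ) [Fact p.Prime] (D : ℕ) :
    [BlowUpsInFibres M p D, FiniteAbove M p D, ZeroAbove M p D, FieldsZeroAbove M p D].TFAE ∧
      (RestrictionQuestion M → BlowUpsInFibres M p D) :=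
  ⟨main_restriction M p D, fun h => blowUps_of_question M h p D⟩

end Pool.Agent.Results.MP_6b81c5_nt.BlowUpsInFibres
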